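import Pool.Agent.H23.WowA

open Pool.Agent.H23.Wow

theorem Pool.Agent.Results.MP_0f31da_co.Counter.result :
    ∃ (n : ℕ) (G : SimpleGraph (Fin n)), 2 ≤ n ∧ G.Connected ∧
      (forestNum G : ℝ) < (bipNum G : ℝ) / ((∑ v, (locInd G v : ℝ)) / n) := by
  refine ⟨31, A.G, by norm_num, A.conn, ?_⟩
  have h1 : (forestNum A.G : ℝ) ≤ 5 := by exact_mod_cast A.f_le
  have h2 : (6 : ℝ) ≤ bipNum A.G := by exact_mod_cast A.b_ge
  have h3 : (∑ v, (locInd A.G v : ℝ)) ≤ 37 := by exact_mod_cast A.sum_le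
  have h4 : (1 : ℝ) ≤ ∑ v, (locInd A.G v : ℝ) := by exact_mod_cast A.sum_pos'
  rw [lt_div_iff₀ (by positivity)]
  push_cast
  nlinarith
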